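import Mathlib
import Pool.Agent.Helper19.BS.Defs
import Pool.Agent.Helper19.BS.Final

set_option autoImplicit false

open AlgebraicGeometry CategoryTheory Pool.Agent.Helper19.BS

namespace Pool.Agent.Results.MP_d72c81_ag.Countability

/-- The Beilinson-Soule vanishing is equivalent to a statement on the size of the groups
`H^{-1}(Spec ℂ, ℚ(w))`, the strong form to a statement on the size of `H^0(Spec ℂ, ℚ(w))`. More
precisely, for every `k`, `w` the smallness of `H^k(Spec ℂ, ℚ(w))` modulo the classes over the
algebraic numbers is equivalent to the rigidity of `H^k(-, ℚ(w))` for extensions of algebraically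
closed fields (and to several other statements), rigidity in degree `k ≤ 0` and weight `w > 0` is
the vanishing for all fields, and smallness in degree `k + 1` and weight `w + 1` over one field of
infinite transcendence degree implies the vanishing in degree `k` and weight `w`. -/
theorem result (T : MotTheory) (hT : IsMotivic T) :
    (∀ P : ∀ X : Scheme.{0}, (X ⟶ Sp ℂ) → Prop, IsClass P →
      List.TFAE [ForClass P (BeilinsonSoule T), ForAll (BeilinsonSoule T),
        ∀ w > 0, Rigid T (-1) w,
        ∀ w > 0, Module.rank ℚ (T.H (Sp ℂ) (-1) w) < Cardinal.continuum] ∧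
      List.TFAE [ForClass P (StrongBeilinsonSoule T), ForAll (StrongBeilinsonSoule T),
        ∀ w > 0, Rigid T 0 w,
        ∀ w > 0, Module.rank ℚ (T.H (Sp ℂ) 0 w) < Cardinal.continuum]) ∧
    ((∀ w : ℤ, 2 ≤ w → SmallOverSomeField T 0 w) → ForAll (BeilinsonSoule T)) ∧
    ((∀ w : ℤ, 2 ≤ w → SmallOverSomeField T 1 w) → ForAll (StrongBeilinsonSoule T)) ∧
    ∀ k w : ℤ,
      List.TFAE [Rigid T k w, FromQbar T k w, SmallOverC T k w, AutTrivial T k w,
        SmallOrbits T k w, CurvesConstant T k w, SmallSomewhere T k w] ∧
      (k ≤ 0 → 0 < w → (Rigid T k w ↔ FieldsVanish T k w)) ∧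
      (SmallOverSomeField T (k + 1) (w + 1) → FieldsVanish T k w) ∧
      ∀ (F : Type) [Field F] [CharZero F], Large F →
        (LineConstant T F (k + 1) (w + 1) ↔ FieldsVanish T k w) :=
  ⟨fun P hP => ⟨tfae_weak hT P hP, tfae_strong hT P hP⟩, weak_of_small hT, strong_of_small hT, fun k w =>
    ⟨tfae_rigid hT k w, rigid_iff_vanish hT k w, vanish_of_small hT k w,
      fun F _ _ hF => line_iff_vanish hT F hF k w⟩⟩

end Pool.Agent.Results.MP_d72c81_ag.Countability
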