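import Pool.Agent.Helper19.VascCharP

/-!
MP_c5773f_ag, Q1 with `N = R` (Vasconcelos' conjecture) in characteristic `p`: if `S` is regular
local of characteristic `p`, `I` proper, `R = S/I`, and the normal module `Hom(I/I², R)` is free,
or has finite projective dimension with `depth R ≤ 2`, then `I` is generated by a regular
sequence.
-/

universe u

open CategoryTheory RingTheory.Sequence

namespace Pool.Agent.Results.MP_c5773f_ag.FreeNormalCharP

theorem result (S : Type u) [CommRing S] [IsRegularLocalRing S] (p : ℕ) [Fact p.Prime]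
    [CharP S p] (I : Ideal S) (hI : I ≠ ⊤)
    (h : Module.Free (S ⧸ I) (I.Cotangent →ₗ[S ⧸ I] (S ⧸ I)) ∨
      ((∀ rs : List (S ⧸ I), IsRegular (S ⧸ I) rs → rs.length ≤ 2) ∧
        projectiveDimension (ModuleCat.of (S ⧸ I) (I.Cotangent →ₗ[S ⧸ I] (S ⧸ I))) < ⊤)) :
    ∃ rs : List S, IsRegular S rs ∧ Ideal.ofList rs = I :=
  Pool.Agent.Helper19.vasconcelos_charP S p I hI h

end Pool.Agent.Results.MP_c5773f_ag.FreeNormalCharP
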